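import Pool.Agent.H83.VU.TargetsG

set_option autoImplicit false

open Finset Pool.Agent.H83.VU

namespace Pool.Agent.H13.VU

open Pool.Agent.H31.MP in
theorem pf_MET (hMR : Pool.Agent.H31.MP.T_MR) : T_MET := by
  obtain ⟨c, C, hc, hC, h⟩ := hMR
  refine ⟨C / c + C + 1 / c, by positivity, ?_⟩
  intro P b hP hb
  have hlogP : 0 < Real.log P := Real.log_pos (by linarith)
  have hPQ : P ≤ P ^ b := by
    calc P = P ^ 1 := (pow_one P).symm
      _ ≤ P ^ b := pow_le_pow_right₀ (by linarith) hb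
  have hQ2 : 2 ≤ P ^ b := hP.trans hPQ
  have hb0 : (0 : ℝ) < b := by exact_mod_cast hb
  have hlogQ : Real.log (P ^ b) = b * Real.log P := Real.log_pow (n := b) (x := P)
  obtain ⟨h1, h2⟩ := h P hP
  obtain ⟨h3, h4⟩ := h (P ^ b) hQ2
  -- the factors
  have hfac : ∀ p : ℕ, p.Prime → (0 : ℝ) < 1 - 1 / (p : ℝ) := by
    intro p hp
    have hp2 : (2 : ℝ) ≤ p := by exact_mod_cast hp.two_le
    rw [sub_pos, div_lt_one (by linarith)]
    linarith
  have hPpos : 0 < ∏ p ∈ PQ P (P ^ b), (1 - 1 / (p : ℝ)) := by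
    apply Finset.prod_pos
    intro p hp
    exact hfac p (Finset.mem_filter.1 hp).2
  have hMeP : 0 < Me P := lt_of_lt_of_le (by positivity) h1
  have hMeQ : 0 < Me (P ^ b) := lt_of_lt_of_le (by rw [hlogQ]; positivity) h3
  have hsplit : Me (P ^ b) = Me P * ∏ p ∈ PQ P (P ^ b), (1 - 1 / (p : ℝ)) := by
    unfold Me PQ
    rw [← Finset.prod_union]
    · congr 1
      ext p
      simp only [Finset.mem_filter, Finset.mem_Icc, Finset.mem_union, Finset.mem_Ioc]
      have hfl : ⌊P⌋₊ ≤ ⌊P ^ b⌋₊ := Nat.floor_le_floor hPQ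
      constructor
      · rintro ⟨⟨ha, hb'⟩, hp⟩
        rcases le_or_gt p ⌊P⌋₊ with hle | hgt
        · exact Or.inl ⟨⟨ha, hle⟩, hp⟩
        · exact Or.inr ⟨⟨hgt, hb'⟩, hp⟩
      · rintro (⟨⟨ha, hb'⟩, hp⟩ | ⟨⟨ha, hb'⟩, hp⟩)
        · exact ⟨⟨ha, hb'.trans hfl⟩, hp⟩
        · exact ⟨⟨hp.one_lt.le, hb'⟩, hp⟩
    · rw [Finset.disjoint_left]
      intro p hp hp'
      simp only [Finset.mem_filter, Finset.mem_Icc, Finset.mem_Ioc] at hp hp'
      omega
  have hprod : ∏ p ∈ PQ P (P ^ b), (1 - 1 / (p : ℝ))⁻¹ ≤ C / c * b := by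
    rw [Finset.prod_inv_distrib]
    have h5 : (∏ p ∈ PQ P (P ^ b), (1 - 1 / (p : ℝ)))⁻¹ = Me P / Me (P ^ b) := by
      rw [hsplit]
      field_simp
    rw [h5, div_le_iff₀ hMeQ]
    calc Me P ≤ C / Real.log P := h2
      _ = C / c * b * (c / Real.log (P ^ b)) := by
        rw [hlogQ]
        field_simp
      _ ≤ C / c * b * Me (P ^ b) := by
        apply mul_le_mul_of_nonneg_left h3
        positivity
  have hle : C / c * b ≤ (C / c + C + 1 / c) * b := by
    apply mul_le_mul_of_nonneg_right _ hb0.le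
    have : 0 < 1 / c := by positivity
    linarith
  refine ⟨?_, hprod.trans hle, ?_, ?_⟩
  · refine le_trans ?_ (hprod.trans hle)
    calc ∑ p ∈ PQ P (P ^ b), 1 / (p : ℝ) ≤ Real.exp (∑ p ∈ PQ P (P ^ b), 1 / (p : ℝ)) := by
          have := Real.add_one_le_exp (∑ p ∈ PQ P (P ^ b), 1 / (p : ℝ))
          linarith
      _ = ∏ p ∈ PQ P (P ^ b), Real.exp (1 / (p : ℝ)) := Real.exp_sum _ _
      _ ≤ ∏ p ∈ PQ P (P ^ b), (1 - 1 / (p : ℝ))⁻¹ := by
          apply Finset.prod_le_prod
          · intro p _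
            exact (Real.exp_pos _).le
          · intro p hp
            have hp1 := hfac p (Finset.mem_filter.1 hp).2
            have h6 : 1 - 1 / (p : ℝ) ≤ Real.exp (-(1 / (p : ℝ))) := by
              have := Real.add_one_le_exp (-(1 / (p : ℝ)))
              linarith
            rw [← inv_inv (Real.exp (1 / (p : ℝ))), ← Real.exp_neg]
            exact inv_anti₀ hp1 h6
  · refine h2.trans ?_
    apply div_le_div_of_nonneg_right _ hlogP.le
    have h7 : 0 < C / c := by positivity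
    have h8 : 0 < 1 / c := by positivity
    linarith
  · refine le_trans ?_ h1
    rw [div_le_div_iff₀ (by positivity) hlogP]
    have h7 : 0 < C / c := by positivity
    have h9 : 1 ≤ c * (C / c + C + 1 / c) := by
      have : c * (C / c + C + 1 / c) = C + c * C + 1 := by field_simp
      rw [this]
      nlinarith
    nlinarith

end Pool.Agent.H13.VU
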